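import Mathlib
import Pool.Agent.U18.UB.Stm
import Pool.Agent.H888R2.KT.N1

/-!
# Project UB, package BL (helper186): the Brascamp-Lieb inequality for `Pt`
-/

set_option autoImplicit false

namespace Pool.Agent.U186.UB

open MeasureTheory Set Filter Topology
open scoped ENNReal InnerProductSpace
open Pool.Agent.U18.UB

/-- the norm of a functional on Euclidean space -/
theorem norm_dual_sq {b : ℕ} (L : E b →L[ℝ] ℝ) :
    ‖L‖ ^ 2 = ∑ i, (L (EuclideanSpace.single i 1)) ^ 2 := by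
  have h1 : ‖L‖ = ‖(InnerProductSpace.toDual ℝ (E b)).symm L‖ :=
    ((InnerProductSpace.toDual ℝ (E b)).symm.norm_map L).symm
  rw [h1, EuclideanSpace.real_norm_sq_eq]
  refine Finset.sum_congr rfl fun i _ => ?_
  have h2 := InnerProductSpace.toDual_symm_apply (𝕜 := ℝ) (E := E b)
    (x := EuclideanSpace.single i 1) (y := L)
  rw [EuclideanSpace.inner_single_right] at h2
  simp at h2
  rw [h2]

/-- the one-dimensional midpoint inequality -/
theorem mid_one {s t T : ℝ} (hT : 0 < T) (hs : 0 ≤ s) (hs' : s ≤ T) (ht : 0 ≤ t) (ht' : t ≤ T) :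
    s * t ≤ ((1 / 2 : ℝ) * (s + t)) ^ 2 * Real.exp (-((s - t) ^ 2 / (4 * T ^ 2))) := by
  rcases eq_or_lt_of_le (add_nonneg hs ht) with h0 | h0
  · have : s = 0 := by linarith
    have ht0 : t = 0 := by linarith
    subst this; subst ht0; simp
  · set u : ℝ := (s - t) ^ 2 / (s + t) ^ 2 with hu
    have hp : 0 < (s + t) ^ 2 := by positivity
    have e1 : s * t = ((1 / 2 : ℝ) * (s + t)) ^ 2 * (1 - u) := by
      rw [hu]; field_simp; ring
    have h1 : 1 - u ≤ Real.exp (-u) := by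
      have := Real.add_one_le_exp (-u); linarith
    have h2 : (s - t) ^ 2 / (4 * T ^ 2) ≤ u := by
      rw [hu]
      apply div_le_div_of_nonneg_left (sq_nonneg _) hp
      nlinarith
    rw [e1]
    refine mul_le_mul_of_nonneg_left (h1.trans (Real.exp_le_exp.2 (by linarith))) (sq_nonneg _)

/-- the weight on Euclidean space -/
noncomputable def wE {b : ℕ} (m : Fin b → ℕ) (D : Set (Fin b → ℝ)) (x : E b) : ℝ := wt m D x.ofLp

theorem wt_nonneg {b : ℕ} (m : Fin b → ℕ) (D : Set (Fin b → ℝ)) (t : Fin b → ℝ) : 0 ≤ wt m D t := by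
  refine Set.indicator_nonneg (fun t ht => ?_) t
  exact Finset.prod_nonneg fun i _ => pow_nonneg (ht.2 i) _

theorem wt_meas {b : ℕ} (m : Fin b → ℕ) (D : Set (Fin b → ℝ)) (hD : UBd D) :
    Measurable (wt m D) := by
  unfold wt
  refine Measurable.indicator ?_ ?_
  · fun_prop
  · refine hD.comp.isClosed.measurableSet.inter ?_
    have : {t : Fin b → ℝ | ∀ i, 0 ≤ t i} = ⋂ i, {t | 0 ≤ t i} := by ext; simp
    change MeasurableSet {t : Fin b → ℝ | ∀ i, 0 ≤ t i}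
    rw [this]
    exact MeasurableSet.iInter fun i => measurableSet_le measurable_const (measurable_pi_apply i)

theorem wt_le {b : ℕ} (m : Fin b → ℕ) (D : Set (Fin b → ℝ)) (T : Fin b → ℝ)
    (hT : ∀ t ∈ D, ∀ i, |t i| ≤ T i) (hT0 : ∀ i, 0 < T i) (t : Fin b → ℝ) :
    wt m D t ≤ ∏ i, T i ^ (m i - 1) := by
  unfold wt
  refine Set.indicator_le' (f := fun t => ∏ i, t i ^ (m i - 1)) (g := fun _ => ∏ i, T i ^ (m i - 1))
    (fun t ht => ?_) (fun t _ => ?_) t
  · exact Finset.prod_le_prod (fun i _ => pow_nonneg (ht.2 i) _) fun i _ =>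
      pow_le_pow_left₀ (ht.2 i) ((le_abs_self _).trans (hT t ht.1 i)) _
  · exact Finset.prod_nonneg fun i _ => pow_nonneg (hT0 i).le _

theorem wE_bdd {b : ℕ} (m : Fin b → ℕ) (D : Set (Fin b → ℝ)) (hD : UBd D) :
    Pool.Agent.H212R2.KLS.Bdd (wE m D) := by
  have h1 : IsCompact ((EuclideanSpace.equiv (Fin b) ℝ).symm '' D) :=
    hD.comp.image (EuclideanSpace.equiv (Fin b) ℝ).symm.continuous
  obtain ⟨R, hR⟩ := h1.isBounded.exists_norm_le
  refine ⟨R, fun x hx => ?_⟩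
  unfold wE wt
  rw [Set.indicator_of_notMem]
  rintro ⟨h2, -⟩
  have : x ∈ (EuclideanSpace.equiv (Fin b) ℝ).symm '' D := ⟨x.ofLp, h2, rfl⟩
  linarith [hR x this]

/-- diagonal maps of Euclidean space -/
noncomputable def diagE {b : ℕ} (s : Fin b → ℝˣ) : E b ≃L[ℝ] E b :=
  (EuclideanSpace.equiv (Fin b) ℝ).trans
    ((ContinuousLinearEquiv.piCongrRight fun i => ContinuousLinearEquiv.unitsEquivAut ℝ (s i)).trans
      (EuclideanSpace.equiv (Fin b) ℝ).symm)

theorem diagE_apply {b : ℕ} (s : Fin b → ℝˣ) (x : E b) (i : Fin b) :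
    (diagE s x).ofLp i = x.ofLp i * (s i : ℝ) := rfl

theorem diagE_symm_apply {b : ℕ} (s : Fin b → ℝˣ) (x : E b) (i : Fin b) :
    ((diagE s).symm x).ofLp i = x.ofLp i * ((s i)⁻¹ : ℝˣ) := rfl

theorem wE_mid {b : ℕ} (m : Fin b → ℕ) (D : Set (Fin b → ℝ)) (T : Fin b → ℝ) (hD : UBd D)
    (hm : ∀ i, 2 ≤ m i) (hT0 : ∀ i, 0 < T i) (hT : ∀ t ∈ D, ∀ i, |t i| ≤ T i)
    (s : Fin b → ℝˣ) (hs : ∀ i, ((s i : ℝ)) ^ 2 = T i ^ 2 / (m i - 1)) (x y : E b) :
    wE m D x * wE m D y ≤ (wE m D ((1 / 2 : ℝ) • (x + y))) ^ 2 *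
      Real.exp (-(‖(diagE s).symm (x - y)‖ ^ 2 / 4)) := by
  by_cases hx : x.ofLp ∈ D ∧ ∀ i, 0 ≤ x.ofLp i
  swap
  · have : wE m D x = 0 := by unfold wE wt; rw [Set.indicator_of_notMem]; exact hx
    rw [this, zero_mul]; positivity
  by_cases hy : y.ofLp ∈ D ∧ ∀ i, 0 ≤ y.ofLp i
  swap
  · have : wE m D y = 0 := by unfold wE wt; rw [Set.indicator_of_notMem]; exact hy
    rw [this, mul_zero]; positivity
  have hz : ((1 / 2 : ℝ) • (x + y)).ofLp ∈ D ∧ ∀ i, 0 ≤ ((1 / 2 : ℝ) • (x + y)).ofLp i := by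
    constructor
    · have := hD.conv hx.1 hy.1 (by norm_num : (0 : ℝ) ≤ 1 / 2) (by norm_num : (0 : ℝ) ≤ 1 / 2)
        (by norm_num)
      have e : ((1 / 2 : ℝ) • (x + y)).ofLp = (1 / 2 : ℝ) • x.ofLp + (1 / 2 : ℝ) • y.ofLp := by
        ext i; simp
      rw [e]; exact this
    · intro i
      have h1 := hx.2 i; have h2 := hy.2 i
      simp only [PiLp.smul_apply, PiLp.add_apply, smul_eq_mul]
      positivity
  have e1 : wE m D x = ∏ i, x.ofLp i ^ (m i - 1) := by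
    unfold wE wt; rw [Set.indicator_of_mem]; exact hx
  have e2 : wE m D y = ∏ i, y.ofLp i ^ (m i - 1) := by
    unfold wE wt; rw [Set.indicator_of_mem]; exact hy
  have e3 : wE m D ((1 / 2 : ℝ) • (x + y)) =
      ∏ i, ((1 / 2 : ℝ) * (x.ofLp i + y.ofLp i)) ^ (m i - 1) := by
    unfold wE wt; rw [Set.indicator_of_mem (by exact hz)]
    refine Finset.prod_congr rfl fun i _ => ?_
    simp [mul_add]
  have e4 : -(‖(diagE s).symm (x - y)‖ ^ 2 / 4) =
      ∑ i, ((m i - 1 : ℕ) : ℝ) * (-((x.ofLp i - y.ofLp i) ^ 2 / (4 * T i ^ 2))) := by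
    rw [EuclideanSpace.real_norm_sq_eq, Finset.sum_div, ← Finset.sum_neg_distrib]
    refine Finset.sum_congr rfl fun i _ => ?_
    rw [diagE_symm_apply]
    have h1 : ((m i - 1 : ℕ) : ℝ) = (m i : ℝ) - 1 := by
      rw [Nat.cast_sub (by have := hm i; omega)]; simp
    have h2 : (0 : ℝ) < (m i : ℝ) - 1 := by
      have : (2 : ℝ) ≤ m i := by exact_mod_cast hm i
      linarith
    have h3 := hT0 i
    have h4 : ((((s i)⁻¹ : ℝˣ) : ℝ)) ^ 2 = ((m i : ℝ) - 1) / T i ^ 2 := by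
      rw [Units.val_inv_eq_inv_val, inv_pow, hs i, inv_div]
    rw [mul_pow, h4, h1]
    simp only [PiLp.sub_apply]
    field_simp
  rw [e1, e2, e3, e4, Real.exp_sum, ← Finset.prod_mul_distrib, ← Finset.prod_pow,
    ← Finset.prod_mul_distrib]
  refine Finset.prod_le_prod (fun i _ => ?_) fun i _ => ?_
  · exact mul_nonneg (pow_nonneg (hx.2 i) _) (pow_nonneg (hy.2 i) _)
  · have h1 := mid_one (hT0 i) (hx.2 i) ((le_abs_self _).trans (hT _ hx.1 i)) (hy.2 i)
      ((le_abs_self _).trans (hT _ hy.1 i))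
    have h2 := pow_le_pow_left₀ (mul_nonneg (hx.2 i) (hy.2 i)) h1 (m i - 1)
    rw [mul_pow, mul_pow, ← Real.exp_nat_mul] at h2
    refine h2.trans (le_of_eq ?_)
    rw [← pow_mul, ← pow_mul, mul_comm 2]

theorem int_Pt {b : ℕ} (m : Fin b → ℕ) (D : Set (Fin b → ℝ)) (hD : UBd D)
    (g : (Fin b → ℝ) → ℝ) : ∫ t, g t ∂(Pt m D) =
      ((∫⁻ t, ENNReal.ofReal (wt m D t))⁻¹).toReal * ∫ t, g t * wt m D t := by
  unfold Pt
  rw [integral_smul_measure, integral_withDensity_eq_integral_toReal_smul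
    (wt_meas m D hD).ennreal_ofReal (Filter.Eventually.of_forall fun _ => ENNReal.ofReal_lt_top)]
  simp only [smul_eq_mul]
  congr 1
  refine integral_congr_ae (Filter.Eventually.of_forall fun t => ?_)
  simp only
  rw [ENNReal.toReal_ofReal (wt_nonneg m D t), mul_comm]

theorem int_E {b : ℕ} (g : (Fin b → ℝ) → ℝ) : ∫ x : E b, g x.ofLp = ∫ t, g t :=
  (EuclideanSpace.volume_preserving_symm_measurableEquiv_toLp (Fin b)).integral_comp
    (MeasurableEquiv.toLp 2 (Fin b → ℝ)).symm.measurableEmbedding g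

/-- Package BL. -/
theorem t_BL : S_BL := by
  intro b m D T hD hm hT0 hT f hf
  have hpos : ∀ i, (0 : ℝ) < (m i : ℝ) - 1 := fun i => by
    have : (2 : ℝ) ≤ m i := by exact_mod_cast hm i
    linarith
  have hs0 : ∀ i, T i / Real.sqrt ((m i : ℝ) - 1) ≠ 0 := fun i =>
    (div_pos (hT0 i) (Real.sqrt_pos.2 (hpos i))).ne'
  set s : Fin b → ℝˣ := fun i => Units.mk0 _ (hs0 i) with hsdef
  have hs : ∀ i, ((s i : ℝ)) ^ 2 = T i ^ 2 / (m i - 1) := fun i => by
    simp only [hsdef, Units.val_mk0]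
    rw [div_pow, Real.sq_sqrt (hpos i).le]
  have hF : ContDiff ℝ 1 (fun x : E b => f x.ofLp) :=
    hf.comp (EuclideanSpace.equiv (Fin b) ℝ).contDiff
  obtain ⟨c, hc⟩ := Pool.Agent.H888R2.KT.bl_lin (wE m D) (fun x => wt_nonneg m D _)
    ((wt_meas m D hD).comp (EuclideanSpace.equiv (Fin b) ℝ).continuous.measurable)
    ⟨_, fun x => wt_le m D T hT hT0 x.ofLp⟩ (wE_bdd m D hD) (diagE s)
    (wE_mid m D T hD hm hT0 hT s hs) (fun x : E b => f x.ofLp) hF
  refine ⟨c, ?_⟩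
  rw [int_Pt m D hD, int_Pt m D hD]
  refine mul_le_mul_of_nonneg_left ?_ ENNReal.toReal_nonneg
  rw [← int_E, ← int_E]
  refine hc.trans (le_of_eq ?_)
  refine integral_congr_ae (Filter.Eventually.of_forall fun x => ?_)
  simp only
  congr 1
  rw [norm_dual_sq]
  refine Finset.sum_congr rfl fun i _ => ?_
  have hfd : fderiv ℝ (fun x : E b => f x.ofLp) x = (fderiv ℝ f x.ofLp).comp
      ((EuclideanSpace.equiv (Fin b) ℝ : E b ≃L[ℝ] (Fin b → ℝ)) : E b →L[ℝ] (Fin b → ℝ)) := by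
    have h1 := fderiv_comp (𝕜 := ℝ) x (g := f) (f := (EuclideanSpace.equiv (Fin b) ℝ))
      ((hf.differentiable one_ne_zero) _) (EuclideanSpace.equiv (Fin b) ℝ).differentiableAt
    rw [ContinuousLinearEquiv.fderiv] at h1
    exact h1
  rw [hfd]
  have h3 : (EuclideanSpace.equiv (Fin b) ℝ) (diagE s (EuclideanSpace.single i 1)) =
      (s i : ℝ) • (Pi.single i 1 : Fin b → ℝ) := by
    ext k
    change (diagE s (EuclideanSpace.single i 1)).ofLp k = _
    rw [diagE_apply]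
    by_cases hk : k = i
    · subst hk; simp
    · simp [hk]
  change ((fderiv ℝ f x.ofLp) ((EuclideanSpace.equiv (Fin b) ℝ)
    (diagE s (EuclideanSpace.single i 1)))) ^ 2 = _
  rw [h3, map_smul, smul_eq_mul, mul_pow, hs i]

end Pool.Agent.U186.UB
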